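import Pool.Agent.H336R5.PS.Defs
set_option autoImplicit false

/-!
The mean of the lower bound `W` of `f log f` for a Riesz product `f` over primes.
-/

namespace Pool.Agent.H468R5.PS

open Filter Topology MeasureTheory
open Pool.Agent.H336R5.PS

/-- finite sums of functions with a mean -/
theorem hasMean_sum {ι : Type} (s : Finset ι) (g : ι → ℝ → ℂ) (L : ι → ℂ)
    (hc : ∀ i ∈ s, Continuous (g i)) (h : ∀ i ∈ s, HasMean (g i) (L i)) :
    HasMean (fun t => ∑ i ∈ s, g i t) (∑ i ∈ s, L i) := by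
  have h1 := tendsto_finsetSum s h
  refine h1.congr fun T => ?_
  rw [intervalIntegral.integral_finsetSum (fun i hi => (hc i hi).intervalIntegrable _ _),
    Finset.mul_sum]

/-- symmetric trigonometric polynomials of degree two -/
theorem sum_five (a b c : ℂ) (d : ℤ → ℂ) (h0 : d 0 = a) (h1 : d 1 = b) (h1' : d (-1) = b)
    (h2 : d 2 = c) (h2' : d (-2) = c) (t l : ℝ) :
    ∑ j ∈ Finset.Icc (-2 : ℤ) 2, d j * Complex.exp (Complex.I * ((t * (j * l) : ℝ) : ℂ)) =
      a + 2 * b * Complex.cos ((t * l : ℝ) : ℂ) +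
        c * (4 * Complex.cos ((t * l : ℝ) : ℂ) ^ 2 - 2) := by
  have e1 : Finset.Icc (-2 : ℤ) 2 = {-2, -1, 0, 1, 2} := by decide
  rw [e1, Finset.sum_insert (by decide), Finset.sum_insert (by decide),
    Finset.sum_insert (by decide), Finset.sum_insert (by decide), Finset.sum_singleton,
    h0, h1, h1', h2, h2']
  set x : ℂ := ((t * l : ℝ) : ℂ) with hx
  have f2 : Complex.I * ((t * (((-2 : ℤ) : ℝ) * l) : ℝ) : ℂ) = -(x * Complex.I) + -(x * Complex.I) := by
    rw [hx]; push_cast; ring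
  have f1 : Complex.I * ((t * (((-1 : ℤ) : ℝ) * l) : ℝ) : ℂ) = -(x * Complex.I) := by
    rw [hx]; push_cast; ring
  have f0 : Complex.I * ((t * (((0 : ℤ) : ℝ) * l) : ℝ) : ℂ) = 0 := by
    push_cast; ring
  have g1 : Complex.I * ((t * (((1 : ℤ) : ℝ) * l) : ℝ) : ℂ) = x * Complex.I := by
    rw [hx]; push_cast; ring
  have g2 : Complex.I * ((t * (((2 : ℤ) : ℝ) * l) : ℝ) : ℂ) = x * Complex.I + x * Complex.I := by
    rw [hx]; push_cast; ring
  rw [f2, f1, f0, g1, g2, Complex.exp_add, Complex.exp_add, Complex.exp_zero, Complex.cos]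
  have h3 : Complex.exp (x * Complex.I) * Complex.exp (-(x * Complex.I)) = 1 := by
    rw [← Complex.exp_add, add_neg_cancel, Complex.exp_zero]
  have h4 : Complex.exp (-x * Complex.I) = Complex.exp (-(x * Complex.I)) := by
    rw [neg_mul]
  rw [h4]
  generalize Complex.exp (x * Complex.I) = y at *
  generalize Complex.exp (-(x * Complex.I)) = z at *
  linear_combination (-2 * c) * h3

/-- the coefficients -/
noncomputable def Q (p q : ℕ) (j : ℤ) : ℂ :=
  if q = p then (if j = 0 then 1 / 12 else if j = 1 ∨ j = -1 then 1 / 2 else 1 / 24)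
  else (if j = 0 then 1 else if j = 1 ∨ j = -1 then 1 / 2 else 0)

theorem sum_self (p : ℕ) (t : ℝ) : ∑ j ∈ Finset.Icc (-2 : ℤ) 2,
    Q p p j * Complex.exp (Complex.I * ((t * (j * Real.log p) : ℝ) : ℂ)) =
      (((u p t - 1) + (u p t - 1) ^ 2 / 6 : ℝ) : ℂ) := by
  rw [sum_five (1 / 12) (1 / 2) (1 / 24) (Q p p) (by simp [Q]) (by simp [Q]) (by simp [Q])
    (by simp [Q]) (by simp [Q])]
  unfold u
  push_cast
  ring

theorem sum_ne {p q : ℕ} (h : q ≠ p) (t : ℝ) : ∑ j ∈ Finset.Icc (-2 : ℤ) 2,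
    Q p q j * Complex.exp (Complex.I * ((t * (j * Real.log q) : ℝ) : ℂ)) = ((u q t : ℝ) : ℂ) := by
  rw [sum_five 1 (1 / 2) 0 (Q p q) (by simp [Q, h]) (by simp [Q, h]) (by simp [Q, h])
    (by simp [Q, h]) (by simp [Q, h])]
  unfold u
  push_cast
  ring

theorem continuous_u (p : ℕ) : Continuous (fun t => u p t) := by
  unfold u
  fun_prop

/-- The mean of `W`. -/
theorem taskA2 (hA : TaskA) : TaskA2 := by
  intro P hP
  have h1 := hasMean_sum P
    (fun p t => ∏ q ∈ P, ∑ j ∈ Finset.Icc (-2 : ℤ) 2,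
      Q p q j * Complex.exp (Complex.I * ((t * (j * Real.log q) : ℝ) : ℂ)))
    (fun p => ∏ q ∈ P, Q p q 0) (fun p _ => by fun_prop) (fun p _ => hA P hP (Q p))
  have h2 : (∑ p ∈ P, ∏ q ∈ P, Q p q 0) = (P.card : ℂ) / 12 := by
    have h3 : ∀ p ∈ P, ∏ q ∈ P, Q p q 0 = 1 / 12 := by
      intro p hp
      rw [← Finset.mul_prod_erase P (fun q => Q p q 0) hp,
        Finset.prod_eq_one fun q hq => by simp [Q, Finset.ne_of_mem_erase hq]]
      simp [Q]
    rw [Finset.sum_congr rfl h3, Finset.sum_const, nsmul_eq_mul]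
    ring
  rw [h2] at h1
  have h4 : (fun t => (W P t : ℂ)) = fun t => ∑ p ∈ P, ∏ q ∈ P, ∑ j ∈ Finset.Icc (-2 : ℤ) 2,
      Q p q j * Complex.exp (Complex.I * ((t * (j * Real.log q) : ℝ) : ℂ)) := by
    funext t
    unfold W
    rw [Complex.ofReal_sum]
    refine Finset.sum_congr rfl fun p hp => ?_
    rw [← Finset.mul_prod_erase P (fun q => ∑ j ∈ Finset.Icc (-2 : ℤ) 2,
      Q p q j * Complex.exp (Complex.I * ((t * (j * Real.log q) : ℝ) : ℂ))) hp, sum_self,
      Finset.prod_congr rfl fun q hq => sum_ne (Finset.ne_of_mem_erase hq) t,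
      Complex.ofReal_mul, Complex.ofReal_prod, mul_comm]
  rw [h4]
  exact h1

end Pool.Agent.H468R5.PS
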